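import Pool.Agent.K3h81.RL.Stm
import Pool.Agent.K3h3.RS.Uniq

/-!
# Powers of `∏ (1 - g)` and powers of the order of the group
-/

set_option autoImplicit false
set_option maxHeartbeats 400000

noncomputable section

namespace Pool.Agent.K3h59.RL

open Pool.Agent.K3h30.RS Pool.Agent.K3h62.RS Pool.Agent.K3h3.RS Pool.Agent.K3h81.RL

variable {G : Type} [CommGroup G]

theorem single_pow_eq (g : G) (k : ℕ) :
    (MonoidAlgebra.single g (1 : ℤ)) ^ k = MonoidAlgebra.single (g ^ k) 1 := by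
  rw [MonoidAlgebra.single_pow, one_pow]

theorem dvd_pow_of_prime (g : G) {l j : ℕ} (hl : l.Prime) (hg : orderOf g = l ^ j) :
    (l : MonoidAlgebra ℤ G) ∣ (1 - MonoidAlgebra.single g 1) ^ (l ^ j) := by
  obtain ⟨r, hr⟩ := exists_add_pow_prime_pow_eq hl (1 : MonoidAlgebra ℤ G)
    (-(MonoidAlgebra.single g (1 : ℤ))) j
  rw [sub_eq_add_neg, hr]
  have h1 : (MonoidAlgebra.single g (1 : ℤ)) ^ (l ^ j) = 1 := by
    rw [single_pow_eq, ← hg, pow_orderOf_eq_one, MonoidAlgebra.one_def]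
  rw [neg_pow, h1, one_pow, mul_one]
  refine dvd_add ?_ (by rw [mul_assoc, mul_assoc]; exact dvd_mul_right _ _)
  rcases Nat.even_or_odd (l ^ j) with he | ho
  · rw [he.neg_one_pow]
    have h2 : Even l := by
      rw [Nat.even_pow] at he
      exact he.1
    have h3 : l = 2 := (Nat.Prime.even_iff hl).1 h2
    rw [h3]
    exact ⟨1, by push_cast; ring⟩
  · rw [ho.neg_one_pow]
    simp

theorem exists_dvd_xC (C : Finset G) {l : ℕ} (hl : l.Prime)
    (h : ∃ g ∈ C, ∃ j : ℕ, orderOf g = l ^ j) :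
    ∃ N : ℕ, (l : MonoidAlgebra ℤ G) ∣ xC C ^ N := by
  obtain ⟨g, hgC, j, hg⟩ := h
  refine ⟨l ^ j, (dvd_pow_of_prime g hl hg).trans (pow_dvd_pow_of_dvd ?_ _)⟩
  exact Finset.dvd_prod_of_mem _ hgC

theorem exists_dvd_xC_of_nat (C : Finset G) (n : ℕ)
    (h : ∀ l : ℕ, l.Prime → l ∣ n → ∃ N : ℕ, (l : MonoidAlgebra ℤ G) ∣ xC C ^ N) :
    ∀ k : ℕ, k ≠ 0 → (∀ l : ℕ, l.Prime → l ∣ k → l ∣ n) →
      ∃ N : ℕ, (k : MonoidAlgebra ℤ G) ∣ xC C ^ N := by
  intro k
  induction k using induction_on_primes with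
  | zero => intro h0; exact absurd rfl h0
  | one => intro _ _; exact ⟨0, by simp⟩
  | prime_mul p a hp ih =>
    intro h0 hk
    obtain ⟨N1, h1⟩ := h p hp (hk p hp (dvd_mul_right _ _))
    obtain ⟨N2, h2⟩ := ih (by rintro rfl; simp at h0)
      fun l hl hla => hk l hl (hla.trans (dvd_mul_left _ _))
    refine ⟨N1 + N2, ?_⟩
    rw [pow_add]
    push_cast
    exact mul_dvd_mul h1 h2

theorem t_SYL : S_SYL := by
  intro G _ _ C h m
  have hn : Nat.card G ≠ 0 := Nat.card_pos.ne'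
  obtain ⟨M, hM⟩ := exists_dvd_xC_of_nat C (Nat.card G)
    (fun l hl hd => exists_dvd_xC C hl (h l hl hd)) (Nat.card G ^ m) (pow_ne_zero _ hn)
    (fun l hl hd => hl.dvd_of_dvd_pow hd)
  obtain ⟨z, hz⟩ := hM
  exact ⟨M, z, by rw [hz]; push_cast; rfl⟩

/-- `∑_{j < o} j g^j` -/
def AA (g : G) : MonoidAlgebra ℤ G :=
  ∑ j ∈ Finset.range (orderOf g), (j : MonoidAlgebra ℤ G) * (MonoidAlgebra.single g 1) ^ j

/-- `∑_{j < o} g^j` -/
def NN (g : G) : MonoidAlgebra ℤ G :=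
  ∑ j ∈ Finset.range (orderOf g), (MonoidAlgebra.single g (1 : ℤ)) ^ j

theorem telescoping {R : Type} [CommRing R] (x : R) (o : ℕ) :
    (1 - x) * (-(∑ j ∈ Finset.range o, (j : R) * x ^ j)) =
      (o : R) * x ^ o - ∑ j ∈ Finset.range o, x ^ j + (1 - x ^ o) := by
  induction o with
  | zero => simp
  | succ k ih =>
    rw [Finset.sum_range_succ, Finset.sum_range_succ, neg_add, mul_add, ih]
    push_cast
    ring

theorem one_sub_mul (g : G) :
    (1 - MonoidAlgebra.single g (1 : ℤ)) * (-(AA g)) =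
      (orderOf g : MonoidAlgebra ℤ G) - NN g := by
  unfold AA NN
  rw [telescoping, single_pow_eq g (orderOf g), pow_orderOf_eq_one, ← MonoidAlgebra.one_def]
  ring

theorem cvQ_single (χ : G →* ℂˣ) (g : G) :
    cvQ χ (toQ (MonoidAlgebra.single g 1)) = χ g := by
  have h1 : toQ (MonoidAlgebra.single g (1 : ℤ)) = MonoidAlgebra.single g (1 : ℚ) := by
    unfold toQ
    simp
  rw [h1]
  change cvHom χ (toR (MonoidAlgebra.single g 1)) = _
  rw [toR_single, cvHom_single]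
  simp

theorem NN_mul_eq_zero [Finite G] (g : G) (y : MonoidAlgebra ℚ G)
    (hy : ∀ χ : G →* ℂˣ, χ g = 1 → charValue χ (toR y) = 0) : toQ (NN g) * y = 0 := by
  refine eq_zero_of_charValue _ fun χ => ?_
  rw [← cvQ_apply, map_mul, cvQ_apply χ y]
  by_cases h : χ g = 1
  · rw [hy χ h, mul_zero]
  · have h1 : cvQ χ (toQ (NN g)) = ∑ j ∈ Finset.range (orderOf g), ((χ g : ℂˣ) : ℂ) ^ j := by
      unfold NN
      rw [map_sum, map_sum]
      refine Finset.sum_congr rfl fun j _ => ?_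
      rw [map_pow, map_pow, cvQ_single]
    have h2 : ((χ g : ℂˣ) : ℂ) ≠ 1 := fun h' => h (Units.ext h')
    have h3 : ((χ g : ℂˣ) : ℂ) ^ orderOf g = 1 := by
      rw [← Units.val_pow_eq_pow_val, ← map_pow, pow_orderOf_eq_one, map_one, Units.val_one]
    rw [h1, geom_sum_eq h2, h3, sub_self, zero_div, zero_mul]

theorem sub_pow_mul {R : Type} [CommRing R] (o N y : R) (h : N * y = 0) (m : ℕ) :
    (o - N) ^ m * y = o ^ m * y := by
  induction m with
  | zero => simp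
  | succ k ih =>
    rw [pow_succ, pow_succ]
    have h1 : (o - N) ^ k * (o - N) * y = (o - N) ^ k * y * o - (o - N) ^ k * (N * y) := by ring
    rw [h1, h, ih]
    ring

theorem prod_sub_pow_mul {R ι : Type} [CommRing R] (C : Finset ι) (o N : ι → R) (y : R)
    (h : ∀ g ∈ C, N g * y = 0) (m : ℕ) :
    (∏ g ∈ C, (o g - N g)) ^ m * y = (∏ g ∈ C, o g) ^ m * y := by
  classical
  rw [← Finset.prod_pow, ← Finset.prod_pow]
  induction C using Finset.induction_on with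
  | empty => simp
  | insert a s ha ih =>
    rw [Finset.prod_insert ha, Finset.prod_insert ha, mul_assoc,
      ih fun g hg => h g (Finset.mem_insert_of_mem hg), mul_left_comm,
      sub_pow_mul _ _ _ (h a (Finset.mem_insert_self _ _))]
    ring

theorem t_ORD : S_ORD := by
  intro G _ _ C m
  refine ⟨m * C.card, fun y hy hr => ?_⟩
  have h0 : ∀ g ∈ C, toQ (NN g) * y = 0 := fun g hg =>
    NN_mul_eq_zero g y fun χ h => hy χ ⟨g, hg, h⟩
  obtain ⟨w, hw⟩ := hr
  have h1 : xC C * ∏ g ∈ C, (-(AA g)) = ∏ g ∈ C, ((orderOf g : MonoidAlgebra ℤ G) - NN g) := by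
    unfold xC
    rw [← Finset.prod_mul_distrib]
    exact Finset.prod_congr rfl fun g _ => one_sub_mul g
  have h2 : toQ ((∏ g ∈ C, (-(AA g))) ^ m * w) =
      (∏ g ∈ C, (orderOf g : MonoidAlgebra ℚ G)) ^ m * y := by
    rw [map_mul, hw, ← mul_assoc, ← map_mul, mul_comm (_ ^ m), ← mul_pow, h1, map_pow, map_prod]
    simp only [map_sub, map_natCast]
    exact prod_sub_pow_mul C (fun g => (orderOf g : MonoidAlgebra ℚ G)) (fun g => toQ (NN g)) y h0 m
  have h3 : ∃ q : ℕ, Nat.card G ^ C.card = (∏ g ∈ C, orderOf g) * q := by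
    have : (∏ g ∈ C, orderOf g) ∣ ∏ _g ∈ C, Nat.card G :=
      Finset.prod_dvd_prod_of_dvd _ _ fun g _ => orderOf_dvd_natCard g
    rw [Finset.prod_const] at this
    exact this
  obtain ⟨q, hq⟩ := h3
  refine ⟨((q : MonoidAlgebra ℤ G)) ^ m * ((∏ g ∈ C, (-(AA g))) ^ m * w), ?_⟩
  rw [map_mul, h2, map_pow, map_pow, map_natCast, map_natCast, ← mul_assoc, ← mul_pow,
    mul_comm m C.card, pow_mul]
  congr 2
  have : ((Nat.card G ^ C.card : ℕ) : MonoidAlgebra ℚ G) =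
      (((∏ g ∈ C, orderOf g) * q : ℕ) : MonoidAlgebra ℚ G) := by rw [hq]
  push_cast at this
  rw [this, mul_comm]

end Pool.Agent.K3h59.RL
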